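import Pool.Agent.Helper39.Uct.Goals4
import Pool.Agent.Helper39.Uct.RG
import Pool.Agent.Helper43.Uct.TI
import Pool.Agent.Helper17.Uct.Gen
import Pool.Agent.Helper96.Uct2.Fes

/-!
# Packet TCP: reduction to commutative unit fibre (virtually polycyclic stabilisers)
-/

set_option autoImplicit false

open scoped ComplexOrder

namespace Pool.Agent.Helper77.Uct3

open Pool.Agent.Helper39.Uct Fib

/-! ## Positive functionals -/

section pos

variable {B : Type} [NonUnitalCStarAlgebra B] (ψ : B →ₗ[ℂ] ℂ)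

theorem pos_conj (hp : ∀ b, 0 ≤ ψ (star b * b)) (a b : B) :
    star (ψ (star b * a)) = ψ (star a * b) := by
  have him : ∀ b, (ψ (star b * b)).im = 0 := fun b => ((Complex.nonneg_iff.1 (hp b)).2).symm
  have h1 := him (a + b)
  have h2 := him (a + Complex.I • b)
  have e1 : star (a + b) * (a + b) = star a * a + star a * b + star b * a + star b * b := by
    rw [star_add]; noncomm_ring
  have e2 : star (a + Complex.I • b) * (a + Complex.I • b) =
      star a * a + Complex.I • (star a * b) + (-Complex.I) • (star b * a) + star b * b := by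
    have e3 : star (Complex.I • b) = -(Complex.I • star b) := by
      rw [star_smul]; simp
    have e4 : Complex.I • Complex.I • (star b * b) = -(star b * b) := by
      rw [smul_smul, Complex.I_mul_I, neg_one_smul]
    rw [star_add, e3]
    simp only [add_mul, mul_add, neg_mul, smul_mul_assoc, mul_smul_comm, neg_smul]
    rw [smul_add, smul_neg, e4, neg_neg]
    abel
  rw [e1] at h1
  rw [e2] at h2
  simp only [map_add, map_smul, Complex.add_im, smul_eq_mul, Complex.mul_im, Complex.I_re,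
    Complex.I_im, Complex.neg_re, Complex.neg_im] at h1 h2
  have ha := him a
  have hb := him b
  rw [ha, hb] at h1 h2
  apply Complex.ext
  · simp only [RCLike.star_def, Complex.conj_re]
    linarith
  · simp only [RCLike.star_def, Complex.conj_im]
    linarith

/-- The semi-inner product of a positive functional. -/
@[instance_reducible] noncomputable def posCore (hp : ∀ b, 0 ≤ ψ (star b * b)) :
    PreInnerProductSpace.Core ℂ B where
  inner a b := ψ (star a * b)
  conj_inner_symm x y := by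
    have := pos_conj ψ hp x y
    simpa using this
  re_inner_nonneg x := (Complex.nonneg_iff.1 (hp x)).1
  add_left x y z := by simp [add_mul]
  smul_left x y r := by simp [smul_mul_assoc]

theorem pos_cs (hp : ∀ b, 0 ≤ ψ (star b * b)) (a b : B) :
    ‖ψ (star a * b)‖ ^ 2 ≤ (ψ (star a * a)).re * (ψ (star b * b)).re := by
  have h := @InnerProductSpace.Core.inner_mul_inner_self_le ℂ B _ _ _ (posCore ψ hp) a b
  have h1 : ‖ψ (star b * a)‖ = ‖ψ (star a * b)‖ := by
    rw [← pos_conj ψ hp a b, norm_star]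
  have h2 : ‖ψ (star a * b)‖ * ‖ψ (star b * a)‖ ≤
      (ψ (star a * a)).re * (ψ (star b * b)).re := h
  rw [h1] at h2
  nlinarith

/-- `ψ (b* y* y b) ≤ ‖y‖² ψ (b* b)`. -/
theorem pos_conj_le (hp : ∀ b, 0 ≤ ψ (star b * b)) (y b : B) :
    (ψ (star b * (star y * y) * b)).re ≤ ‖y‖ ^ 2 * (ψ (star b * b)).re := by
  let _ : PartialOrder B := CStarAlgebra.spectralOrder B
  have : StarOrderedRing B := CStarAlgebra.spectralOrderedRing B
  have h1 : star b * (star y * y) * b ≤ ‖star y * y‖ • (star b * b) :=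
    CStarAlgebra.star_left_conjugate_le_norm_smul (hb := IsSelfAdjoint.star_mul_self y)
  have h2 : 0 ≤ ‖star y * y‖ • (star b * b) - star b * (star y * y) * b := sub_nonneg.2 h1
  obtain ⟨z, hz⟩ := CStarAlgebra.nonneg_iff_eq_star_mul_self.mp h2
  have h3 := (Complex.nonneg_iff.1 (hp z)).1
  rw [← hz, map_sub] at h3
  have h4 : ψ (‖star y * y‖ • (star b * b)) = (‖star y * y‖ : ℂ) * ψ (star b * b) := by
    have : ‖star y * y‖ • (star b * b) = ((‖star y * y‖ : ℝ) : ℂ) • (star b * b) :=
      (Complex.coe_smul _ _).symm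
    rw [this, map_smul, smul_eq_mul]
  rw [h4, Complex.sub_re, Complex.re_ofReal_mul, CStarRing.norm_star_mul_self] at h3
  nlinarith

/-- `‖ψ (x* y x)‖ ≤ ‖y‖` if `ψ (x* x) = 1`. -/
theorem pos_bound_conj (hp : ∀ b, 0 ≤ ψ (star b * b)) {x : B} (hx : ψ (star x * x) = 1) (y : B) :
    ‖ψ (star x * y * x)‖ ≤ ‖y‖ := by
  have h1 := pos_cs ψ hp x (y * x)
  have e : star (y * x) * (y * x) = star x * (star y * y) * x := by
    rw [star_mul]; noncomm_ring
  rw [e, hx] at h1
  have h2 := pos_conj_le ψ hp y x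
  rw [hx] at h2
  simp only [Complex.one_re, one_mul, mul_one] at h1 h2
  have h3 : ‖ψ (star x * y * x)‖ ^ 2 ≤ ‖y‖ ^ 2 := by
    rw [mul_assoc]
    exact h1.trans h2
  exact le_of_sq_le_sq h3 (norm_nonneg _)

end pos

/-- An elementary fact on nonnegative trigonometric-type forms. -/
theorem form_zero {p q : ℂ} {r : ℂ} (h : ∀ t : ℂ, 0 ≤ r + t * p + star t * q) :
    p = 0 ∧ q = 0 := by
  have key : ∀ a b : ℝ, (∀ x : ℝ, 0 ≤ a + x * b) → b = 0 := by
    intro a b hab
    by_contra hb
    have h1 := hab (-(|a| + 1) / b)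
    have h2 : -(|a| + 1) / b * b = -(|a| + 1) := by field_simp
    rw [h2] at h1
    have h3 := le_abs_self a
    linarith
  have h1 : ∀ x : ℝ, 0 ≤ r.re + x * (p.re + q.re) ∧ r.im + x * (p.im + q.im) = 0 := by
    intro x
    have h2 := Complex.nonneg_iff.1 (h (x : ℂ))
    simp only [Complex.add_re, Complex.add_im, RCLike.star_def, Complex.conj_ofReal,
      Complex.re_ofReal_mul, Complex.im_ofReal_mul] at h2
    constructor
    · nlinarith [h2.1]
    · nlinarith [h2.2]
  have h3 : ∀ x : ℝ, 0 ≤ r.re + x * (q.im - p.im) ∧ r.im + x * (p.re - q.re) = 0 := by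
    intro x
    have h2 := Complex.nonneg_iff.1 (h ((x : ℂ) * Complex.I))
    simp only [Complex.add_re, Complex.add_im, RCLike.star_def, map_mul, Complex.conj_ofReal,
      Complex.conj_I, mul_assoc, Complex.re_ofReal_mul, Complex.im_ofReal_mul, neg_mul,
      Complex.I_mul_re, Complex.I_mul_im, Complex.neg_re, Complex.neg_im] at h2
    constructor
    · nlinarith [h2.1]
    · nlinarith [h2.2]
  have a1 := key _ _ fun x => (h1 x).1
  have a2 : p.im + q.im = 0 := by
    have := (h1 1).2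
    have := (h1 0).2
    linarith
  have a3 := key _ _ fun x => (h3 x).1
  have a4 : p.re - q.re = 0 := by
    have := (h3 1).2
    have := (h3 0).2
    linarith
  constructor
  · apply Complex.ext
    · rw [Complex.zero_re]; linarith
    · rw [Complex.zero_im]; linarith
  · apply Complex.ext
    · rw [Complex.zero_re]; linarith
    · rw [Complex.zero_im]; linarith

section main

variable {Q : Type} [Group Q] {A : Type} [NonUnitalCStarAlgebra A] {H : Type}
  [NonUnitalCStarAlgebra H]

/-- A self-adjoint contraction of the unit fibre on which a point takes the value one. -/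
theorem exists_z {G : Fib Q H} (φ : G.Pt) :
    ∃ z ∈ G.fib 1, IsSelfAdjoint z ∧ ‖z‖ ≤ 1 ∧ φ z = 1 := by
  obtain ⟨c, hc, hc1⟩ := pt_exists_one φ
  set p := star c * c with hp
  have hpm : p ∈ G.fib 1 := smem G hc hc
  have hpsa : IsSelfAdjoint p := IsSelfAdjoint.star_mul_self c
  have hp1 : φ p = 1 := by
    rw [hp, pt_mulL φ (unit_star G hc), pt_herm, hc1]
    simp
  have hcl : IsClosed ((Helper17.Uct.CC G : NonUnitalStarSubalgebra ℂ H) : Set H) := G.closed 1
  have hmem : ∀ f : ℝ → ℝ, cfcₙ f p ∈ G.fib 1 := by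
    intro f
    have : cfcₙ f p ∈ Helper17.Uct.CC G := cfcₙ_mem f (show p ∈ Helper17.Uct.CC G from hpm)
    exact this
  have hps : ∀ t : ℝ, 0 < 1 + t * t := fun t => by nlinarith [mul_self_nonneg t]
  have hne : ∀ t : ℝ, 1 + t * t ≠ 0 := fun t => (hps t).ne'
  have hcont : Continuous fun t : ℝ => 2 * t / (1 + t * t) := by
    refine Continuous.div (by fun_prop) (by fun_prop) hne
  set z := cfcₙ (fun t : ℝ => 2 * t / (1 + t * t)) p with hz
  have hzm : z ∈ G.fib 1 := hmem _
  have hzsa : IsSelfAdjoint z := IsSelfAdjoint.cfcₙ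
  have hzn : ‖z‖ ≤ 1 := by
    refine norm_cfcₙ_le ?_
    intro t _
    have h1 : |1 + t * t| = 1 + t * t := abs_of_pos (hps t)
    rw [Real.norm_eq_abs, abs_div, h1, div_le_one (hps t), abs_le]
    constructor <;> nlinarith [sq_nonneg (t - 1), sq_nonneg (t + 1)]
  have hid : z + z * (p * p) = (2 : ℂ) • p := by
    have e0 : p * p = cfcₙ (fun t : ℝ => t * t) p := by
      rw [cfcₙ_mul (fun t : ℝ => t) (fun t : ℝ => t) p, cfcₙ_id' ℝ p]
    have e1 : z * (p * p) = cfcₙ (fun t : ℝ => 2 * t / (1 + t * t) * (t * t)) p := by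
      rw [e0, hz, ← cfcₙ_mul _ _ p hcont.continuousOn (by simp)
        (by fun_prop) (by simp)]
    have hc2 : Continuous fun t : ℝ => t * t := by fun_prop
    rw [e1, hz, ← cfcₙ_add (fun t : ℝ => 2 * t / (1 + t * t))
      (fun t : ℝ => 2 * t / (1 + t * t) * (t * t)) p hcont.continuousOn (by simp)
      (hcont.mul hc2).continuousOn (by simp)]
    have e2 : (fun t : ℝ => 2 * t / (1 + t * t) + 2 * t / (1 + t * t) * (t * t)) =
        fun t : ℝ => t + t := by
      funext t
      have := hne t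
      field_simp
      ring
    rw [e2, cfcₙ_add (fun t : ℝ => t) (fun t : ℝ => t) p, cfcₙ_id' ℝ p, two_smul]
  refine ⟨z, hzm, hzsa, hzn, ?_⟩
  have h1 := congrArg φ.toFun hid
  rw [map_add, map_smul, pt_mulL φ hzm, pt_mulL φ hpm, hp1] at h1
  have h2 : 2 * φ z = 2 := by
    have h3 : φ.toFun z + φ.toFun z * (1 * 1) = 2 * 1 := by simpa using h1
    linear_combination h3
  linear_combination (1 / 2 : ℂ) * h2

/-- The range of an embedding as a subspace. -/
def rng (ι : H →⋆ₙₐ[ℂ] A) : Submodule ℂ A where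
  carrier := Set.range ι
  add_mem' := by
    rintro _ _ ⟨x, rfl⟩ ⟨y, rfl⟩
    exact ⟨x + y, map_add ι x y⟩
  zero_mem' := ⟨0, map_zero ι⟩
  smul_mem' := by
    rintro c _ ⟨x, rfl⟩
    exact ⟨c • x, map_smul ι c x⟩

/-- Positivity passes to the hereditary subalgebra. -/
theorem pos_of_eq (ι : H →⋆ₙₐ[ℂ] A) (hι : Function.Injective ι) {h : H} {u : A}
    (hu : ι h = star u * u) : ∃ s, h = star s * s := by
  have hcl : IsClosed (rng ι : Set A) :=
    (NonUnitalStarAlgHom.isometry ι hι).isClosedEmbedding.isClosed_range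
  obtain ⟨v, ⟨s, rfl⟩, hv⟩ := Helper96.Uct2.exists_sqrt (rng ι) hcl
    (by
      rintro _ ⟨x, rfl⟩ _ ⟨y, rfl⟩
      exact ⟨x * y, map_mul ι x y⟩)
    (by
      rintro _ ⟨x, rfl⟩
      exact ⟨star x, map_star ι x⟩) (x := star u * u) ⟨h, hu⟩ (by
      let _ : PartialOrder A := CStarAlgebra.spectralOrder A
      have : StarOrderedRing A := CStarAlgebra.spectralOrderedRing A
      exact star_mul_self_nonneg u)
  refine ⟨s, hι ?_⟩
  rw [hu, ← hv, map_mul, map_star]

/-- The main construction. -/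
theorem extend (hU : S_UNI) (G : Fib Q A) (ι : H →⋆ₙₐ[ℂ] A) (hι : Hered ι) (G' : Fib Q H)
    (h1 : ∀ t, ∀ h ∈ G'.fib t, ι h ∈ G.fib t)
    (h2 : ∀ z ∈ G'.fib 1, ∀ y ∈ G.fib 1, ∀ h, ι h = ι z * y * ι z → h ∈ G'.fib 1)
    (φ : G'.Pt) : ∃ ψ : A →ₗ[ℂ] ℂ, PureAt G ψ ∧ G'.St φ ⊆ Stab G ψ := by
  obtain ⟨z, hzm, hzsa, hzn, hz1⟩ := exists_z φ
  have hiso := NonUnitalStarAlgHom.isometry ι hι.1
  have hnorm : ∀ h, ‖ι h‖ = ‖h‖ := fun h => by
    have := hiso.norm_map_of_map_zero (map_zero ι) h
    exact this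
  have hZ : ι z ∈ G.fib 1 := h1 1 z hzm
  have hZsa : star (ι z) = ι z := by rw [← map_star, hzsa.star_eq]
  have hZn : ‖ι z‖ ≤ 1 := by rw [hnorm]; exact hzn
  choose k hk using fun y : A => hι.2 z z y
  -- `hk : ∀ y, ι (k y) = ι z * y * ι z`
  have kadd : ∀ x y, k (x + y) = k x + k y := by
    intro x y
    apply hι.1
    rw [map_add, hk, hk, hk]
    noncomm_ring
  have ksmul : ∀ (c : ℂ) x, k (c • x) = c • k x := by
    intro c x
    apply hι.1
    rw [map_smul, hk, hk, mul_smul_comm, smul_mul_assoc]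
  let ψ : A →ₗ[ℂ] ℂ :=
    { toFun := fun y => φ (k y)
      map_add' := fun x y => by rw [kadd]; exact map_add φ.toFun _ _
      map_smul' := fun c x => by rw [ksmul]; exact map_smul φ.toFun _ _ }
  have hψ : ∀ y, ψ y = φ (k y) := fun y => rfl
  have hpos : ∀ b, 0 ≤ ψ (star b * b) := by
    intro b
    obtain ⟨s, hs⟩ := pos_of_eq ι hι.1 (h := k (star b * b)) (u := b * ι z) (by
      rw [hk, star_mul, hZsa]
      noncomm_ring)
    rw [hψ, hs]
    exact φ.pos s
  have hbound : ∀ b, ‖ψ b‖ ≤ ‖b‖ := by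
    intro b
    rw [hψ]
    refine (φ.bound _).trans ?_
    rw [← hnorm, hk]
    calc ‖ι z * b * ι z‖ ≤ ‖ι z * b‖ * ‖ι z‖ := norm_mul_le _ _
      _ ≤ (‖ι z‖ * ‖b‖) * ‖ι z‖ := by gcongr; exact norm_mul_le _ _
      _ ≤ (1 * ‖b‖) * 1 := by gcongr
      _ = ‖b‖ := by ring
  have hψι : ∀ h, ψ (ι h) = φ h := by
    intro h
    have e : k (ι h) = z * h * z := by
      apply hι.1
      rw [hk, map_mul, map_mul]
    rw [hψ, e, pt_mulR φ hzm, pt_mulL φ hzm, hz1, one_mul, mul_one]
  have hψZ : ψ (ι z) = 1 := by rw [hψι, hz1]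
  have huni := hU A ψ hbound hpos (ι z) hZsa hZn hψZ
  have hkm : ∀ y ∈ G.fib 1, k y ∈ G'.fib 1 := fun y hy => h2 z hzm y hy _ (hk y)
  refine ⟨ψ, ⟨hbound, hpos, ?_, ?_⟩, ?_⟩
  · intro ε hε
    refine ⟨ι z, hZ, hZn, ?_⟩
    rw [hψZ, norm_one]
    linarith
  · intro ω hω
    -- null vectors
    have hnull : ∀ n ∈ G.fib 1, ψ (star n * n) = 0 → ∀ x ∈ G.fib 1,
        ω (star x * n) = 0 ∧ ω (star n * x) = 0 := by
      intro n hn hn0 x hx
      have hωn : ω (star n * n) = 0 := by
        have := hω n hn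
        rw [hn0] at this
        exact le_antisymm this.2 this.1
      refine form_zero (r := ω (star x * x)) fun t => ?_
      have h3 := (hω (x + t • n) (add_mem hx ((G.fib 1).smul_mem t hn))).1
      have e : star (x + t • n) * (x + t • n) = star x * x + t • (star x * n) +
          star t • (star n * x) + (star t * t) • (star n * n) := by
        rw [star_add, star_smul, mul_comm (star t) t, ← smul_smul]
        simp only [add_mul, mul_add, smul_add, smul_mul_assoc, mul_smul_comm]
        abel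
      rw [e] at h3
      simpa only [map_add, map_smul, smul_eq_mul, hωn, mul_zero, add_zero] using h3
    have hZnull : ∀ y ∈ G.fib 1, ψ (star (y - y * ι z) * (y - y * ι z)) = 0 := by
      intro y hy
      have e : star (y - y * ι z) * (y - y * ι z) = star y * y - (star y * y) * ι z -
          (ι z * (star y * y) - ι z * ((star y * y) * ι z)) := by
        rw [star_sub, star_mul, hZsa]
        noncomm_ring
      rw [e, map_sub, map_sub, map_sub, (huni _).2, (huni _).2, (huni _).1]
      ring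
    have hself : ∀ y ∈ G.fib 1, IsSelfAdjoint y → ω (y * ι z) = ω y ∧ ω (ι z * y) = ω y := by
      have hsq : ∀ m ∈ G.fib 1, IsSelfAdjoint m → ω (m * m * ι z) = ω (m * m) ∧
          ω (ι z * (m * m)) = ω (m * m) := by
        intro m hm hmsa
        have h3 := hnull (m - m * ι z) (sub_mem hm (unit_mul G hm hZ)) (hZnull m hm) m hm
        rw [star_sub, star_mul, hZsa, hmsa.star_eq, mul_sub, sub_mul, map_sub, map_sub,
          sub_eq_zero, sub_eq_zero] at h3
        constructor
        · rw [mul_assoc]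
          exact h3.1.symm
        · rw [← mul_assoc]
          exact h3.2.symm
      intro y hy hysa
      obtain ⟨m, hm, n, hn, hmsa, hnsa, -, hmn⟩ := Helper17.Uct.exists_split G hy hysa
      rw [hmn, sub_mul, mul_sub, map_sub, map_sub, map_sub, (hsq m hm hmsa).1,
        (hsq m hm hmsa).2, (hsq n hn hnsa).1, (hsq n hn hnsa).2]
      exact ⟨rfl, rfl⟩
    have hall : ∀ y ∈ G.fib 1, ω (y * ι z) = ω y ∧ ω (ι z * y) = ω y := by
      intro y hy
      have hr : (realPart y : A) ∈ G.fib 1 := by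
        rw [realPart_apply_coe]
        exact (G.fib 1).smul_of_tower_mem _ (add_mem hy (unit_star G hy))
      have hi : (imaginaryPart y : A) ∈ G.fib 1 := by
        rw [imaginaryPart_apply_coe]
        exact (G.fib 1).smul_mem _ ((G.fib 1).smul_of_tower_mem _
          (sub_mem hy (unit_star G hy)))
      have h3 := hself _ hr (realPart y).2
      have h4 := hself _ hi (imaginaryPart y).2
      rw [← realPart_add_I_smul_imaginaryPart y]
      constructor
      · rw [add_mul, smul_mul_assoc, map_add, map_add, map_smul, map_smul, h3.1, h4.1]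
      · rw [mul_add, mul_smul_comm, map_add, map_add, map_smul, map_smul, h3.2, h4.2]
    have hι0 : ∀ h ∈ G'.fib 1, φ h = 0 → ω (ι h) = 0 := by
      intro h hh h0
      have h3 : ψ (star (ι h) * ι h) = 0 := by
        rw [← map_star, ← map_mul, hψι, pt_mulR φ hh, h0, mul_zero]
      have h4 := (hnull (ι h) (h1 1 h hh) h3 (ι z) hZ).1
      rw [hZsa, (hall _ (h1 1 h hh)).2] at h4
      exact h4
    refine ⟨ω (ι z), fun c hc => ?_⟩
    have h3 : ω c = ω (ι (k c)) := by
      rw [hk, mul_assoc, (hall _ (unit_mul G hc hZ)).2, (hall _ hc).1]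
    have h4 := hι0 (k c - φ (k c) • z) (sub_mem (hkm c hc) ((G'.fib 1).smul_mem _ hzm)) (by
      have : φ.toFun (k c - φ.toFun (k c) • z) = 0 := by
        rw [map_sub, map_smul, smul_eq_mul, hz1, mul_one, sub_self]
      exact this)
    rw [map_sub, map_smul, map_sub, map_smul, sub_eq_zero] at h4
    rw [h3, h4, hψ, smul_eq_mul, mul_comm]
  · rintro q ⟨⟨b₀, hb₀, hb0⟩, hst⟩
    have hre : 0 < (φ (star b₀ * b₀)).re := by
      rcases (pt_re φ b₀).lt_or_eq with h | h
      · exact h
      · exact absurd (Complex.ext h.symm (pt_im φ b₀)) hb0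
    have hval : φ (star b₀ * b₀) = ((φ (star b₀ * b₀)).re : ℂ) := by
      apply Complex.ext
      · simp
      · simpa using pt_im φ b₀
    set r := (φ (star b₀ * b₀)).re with hr
    set b := (((√r)⁻¹ : ℝ) : ℂ) • b₀ with hb
    have hbm : b ∈ G'.fib q := (G'.fib q).smul_mem _ hb₀
    have hbb : φ (star b * b) = 1 := by
      have e : star b * b = (((√r)⁻¹ : ℝ) * ((√r)⁻¹ : ℝ) : ℂ) • (star b₀ * b₀) := by
        rw [hb, star_smul, smul_mul_assoc, mul_smul_comm, smul_smul]
        simp
      have e2 : φ.toFun (star b * b) = 1 := by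
        rw [e, map_smul, smul_eq_mul]
        have e3 : φ.toFun (star b₀ * b₀) = (r : ℂ) := hval
        rw [e3]
        have e4 : (√r)⁻¹ * (√r)⁻¹ * r = 1 := by
          have := Real.mul_self_sqrt hre.le
          have hs : √r ≠ 0 := (Real.sqrt_pos.2 hre).ne'
          field_simp
          nlinarith
        exact_mod_cast e4
      exact e2
    have hxx : ψ (star (ι b) * ι b) = 1 := by
      rw [← map_star, ← map_mul, hψι, hbb]
    refine ⟨ι b, h1 q b hbm, hxx, fun c hc => ?_⟩
    let ψx : A →ₗ[ℂ] ℂ :=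
      { toFun := fun y => ψ (star (ι b) * y * ι b)
        map_add' := fun x y => by rw [mul_add, add_mul, map_add]
        map_smul' := fun c x => by
          rw [mul_smul_comm, smul_mul_assoc, map_smul, RingHom.id_apply] }
    have hψx : ∀ y, ψx y = ψ (star (ι b) * y * ι b) := fun y => rfl
    have hψxZ : ψx (ι z) = 1 := by
      rw [hψx, ← map_star, ← map_mul, ← map_mul, hψι, hst b hbm z hzm, hz1, hbb, one_mul]
    have hux := hU A ψx (fun y => pos_bound_conj ψ hpos hxx y) (fun y => by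
      have e : star (ι b) * (star y * y) * ι b = star (y * ι b) * (y * ι b) := by
        rw [star_mul]; noncomm_ring
      rw [hψx, e]
      exact hpos _) (ι z) hZsa hZn hψxZ
    rw [← hψx, ← (hux c).2, ← (hux (ι z * c)).1, ← hk, hψx, ← map_star, ← map_mul, ← map_mul,
      hψι, hst b hbm (k c) (hkm c hc), hbb, mul_one, hψ]

end main

/-- Packet TCP. -/
theorem tcp (hU : S_UNI) : S_TCP := by
  intro A _ hA hn
  obtain ⟨Q, _, G, A₀, _, hI, ⟨ι₀, hι₀⟩, hV⟩ := hA
  have hcl : IsClosed (unitAlg G : Set A) := G.closed 1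
  obtain ⟨c, hc, hc0⟩ := Helper43.Uct.exists_unit_ne_zero G hn
  -- the abelian element
  have hmem : ∀ x, ι₀ x ∈ unitAlg G := by
    intro x
    show ι₀ x ∈ (G.fib 1 : Set A)
    rw [← hι₀]
    exact ⟨x, rfl⟩
  let π₀ : A₀ →⋆ₙₐ[ℂ] unitAlg G := NonUnitalStarAlgHom.codRestrict ι₀ (unitAlg G) hmem
  have hπ₀ : Function.Surjective π₀ := by
    intro z
    have hz : (z : A) ∈ (G.fib 1 : Set A) := z.2
    rw [← hι₀] at hz
    obtain ⟨x, hx⟩ := hz
    exact ⟨x, Subtype.ext hx⟩
  have hnt : Nontrivial (unitAlg G) := by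
    refine ⟨⟨⟨c, hc⟩, 0, ?_⟩⟩
    intro h
    exact hc0 (congrArg Subtype.val h)
  obtain ⟨a, hasa, ha0, hacomm⟩ := hI (unitAlg G) π₀ hπ₀ hnt
  have hesa : IsSelfAdjoint (a : A) := congrArg Subtype.val hasa.star_eq
  have he0 : (a : A) ≠ 0 := fun h => ha0 (Subtype.ext h)
  have hea : (a : A) ∈ G.fib 1 := a.2
  obtain ⟨H, _, ι, hι, hHn, -, G', hG'⟩ := rg Q A G ⊤ Q (⊤ : Subgroup Q).subtype (a : A) hesa he0
    (fun q hq => absurd (Subgroup.mem_top q) hq) (by
      have h1 : G.fib 1 ≤ ⨆ k : ((⊤ : Subgroup Q).subtype).ker,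
          G.fib ((k : (⊤ : Subgroup Q)) : Q) :=
        le_iSup (fun k : ((⊤ : Subgroup Q).subtype).ker =>
          G.fib ((k : (⊤ : Subgroup Q)) : Q)) 1
      exact Submodule.le_topologicalClosure _ (h1 hea))
  have hcomm : G'.Comm := by
    intro x hx y hy
    rw [hG'] at hx hy
    apply hι.1
    rw [map_mul, map_mul]
    refine Helper43.Uct.comm_closure_span _ ?_ _ _ hx hy
    rintro u ⟨q, hq, b, hb, rfl⟩ v ⟨q', hq', b', hb', rfl⟩
    have hq1 : (q : Q) = 1 := hq
    have hq1' : (q' : Q) = 1 := hq'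
    rw [hq1] at hb
    rw [hq1'] at hb'
    exact congrArg Subtype.val (hacomm ⟨b, hb⟩ ⟨b', hb'⟩)
  have h1 : ∀ t, ∀ h ∈ G'.fib t, ι h ∈ G.fib t := by
    intro t h hh
    rw [hG'] at hh
    refine closure_minimal ?_ (G.closed t) hh
    refine Submodule.span_le.2 ?_
    rintro x ⟨q, hq, b, hb, rfl⟩
    have hq1 : (q : Q) = t := hq
    rw [hq1] at hb
    exact unit_r G hea (unit_l G hea hb)
  have h2 : ∀ z ∈ G'.fib 1, ∀ y ∈ G.fib 1, ∀ h, ι h = ι z * y * ι z → h ∈ G'.fib 1 := by
    intro z hz y hy h hh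
    rw [hG'] at hz ⊢
    rw [hh]
    refine map_mem_closure₂ (f := fun u v => u * y * v)
      ((continuous_fst.mul continuous_const).mul continuous_snd) hz hz ?_
    intro u hu v hv
    show u * y * v ∈ Submodule.span ℂ _
    change u ∈ Submodule.span ℂ _ at hu
    change v ∈ Submodule.span ℂ _ at hv
    induction hu using Submodule.span_induction with
    | mem u hu =>
      obtain ⟨q, hq, b, hb, rfl⟩ := hu
      induction hv using Submodule.span_induction with
      | mem v hv =>
        obtain ⟨q', hq', b', hb', rfl⟩ := hv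
        have hq1 : (q : Q) = 1 := hq
        have hq1' : (q' : Q) = 1 := hq'
        rw [hq1] at hb
        rw [hq1'] at hb'
        refine Submodule.subset_span ⟨1, rfl, b * (a * y * a) * b', ?_, by noncomm_ring⟩
        exact unit_mul G (unit_mul G hb (unit_mul G (unit_mul G hea hy) hea)) hb'
      | zero => rw [mul_zero]; exact Submodule.zero_mem _
      | add v w _ _ hv hw => rw [mul_add]; exact Submodule.add_mem _ hv hw
      | smul c v _ hv => rw [mul_smul_comm]; exact Submodule.smul_mem _ _ hv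
    | zero => rw [zero_mul, zero_mul]; exact Submodule.zero_mem _
    | add u w _ _ hu hw => rw [add_mul, add_mul]; exact Submodule.add_mem _ hu hw
    | smul c u _ hu => rw [smul_mul_assoc, smul_mul_assoc]; exact Submodule.smul_mem _ _ hu
  refine ⟨H, _, ι, hι, hHn, Q, _, G', hcomm, fun φ => ?_⟩
  obtain ⟨ψ, hψ, hst⟩ := extend hU G ι hι G' h1 h2 φ
  obtain ⟨S, hS, hsub⟩ := hV ψ hψ
  exact ⟨S, hS, hst.trans hsub⟩

end Pool.Agent.Helper77.Uct3
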